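import Pool.Agent.H143R3.MT.Stmts

/-! Project H143-MT, task A2. -/

namespace Pool.Agent.H237R3.MT.A2

open MeasureTheory ProbabilityTheory Filter Topology
open scoped ENNReal NNReal
open Pool.Agent.H143R3.MT

theorem poisson_ge_one (l : ℝ≥0) : poissonMeasure l {n | 1 ≤ n} ≤ (l : ℝ≥0∞) := by
  have h1 : {n : ℕ | 1 ≤ n} = ({0} : Set ℕ)ᶜ := by
    ext n
    simp only [Set.mem_ofPred_eq, Set.mem_compl_iff, Set.mem_singleton_iff]
    omega
  rw [h1, prob_compl_eq_one_sub (measurableSet_singleton _), poissonMeasure_singleton]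
  have h2 : (1 : ℝ≥0∞) = ENNReal.ofReal 1 := ENNReal.ofReal_one.symm
  rw [h2, ← ENNReal.ofReal_sub _ (by positivity), ← ENNReal.ofReal_coe_nnreal]
  apply ENNReal.ofReal_le_ofReal
  have := Real.add_one_le_exp (-(l : ℝ))
  simp
  linarith

theorem poisson_ge_two (l : ℝ≥0) : poissonMeasure l {n | 2 ≤ n} ≤ ((l ^ 2 : ℝ≥0) : ℝ≥0∞) := by
  have h1 : {n : ℕ | 2 ≤ n} = ({0, 1} : Set ℕ)ᶜ := by
    ext n
    simp only [Set.mem_ofPred_eq, Set.mem_compl_iff, Set.mem_insert_iff, Set.mem_singleton_iff]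
    omega
  have h3 : poissonMeasure l ({0, 1} : Set ℕ) =
      ENNReal.ofReal (Real.exp (-l) + Real.exp (-l) * l) := by
    rw [Set.insert_eq, measure_union (by simp) (measurableSet_singleton _),
      poissonMeasure_singleton, poissonMeasure_singleton, ← ENNReal.ofReal_add (by positivity)
        (by positivity)]
    simp
  rw [h1, prob_compl_eq_one_sub (by measurability), h3]
  have h2 : (1 : ℝ≥0∞) = ENNReal.ofReal 1 := ENNReal.ofReal_one.symm
  rw [h2, ← ENNReal.ofReal_sub _ (by positivity), ← ENNReal.ofReal_coe_nnreal]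
  apply ENNReal.ofReal_le_ofReal
  have h4 := Real.add_one_le_exp (-(l : ℝ))
  have h5 : (0 : ℝ) ≤ l := l.2
  push_cast
  nlinarith

theorem tsum_eq (s : ℝ≥0) (p : ℤ → Prop) [DecidablePred p] :
    ∑' k, (if p k then sk s k else 0) = skellam s {k | p k} := by
  rw [← Measure.tsum_indicator_apply_singleton (skellam s) {k | p k} (by measurability)]
  refine tsum_congr fun k => ?_
  simp only [Set.indicator, Set.mem_ofPred_eq, sk]

theorem skellam_le (s : ℝ≥0) (A : Set ℤ) (B : Set ℕ)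
    (h : ∀ u v : ℕ, (u : ℤ) - v ∈ A → u ∈ B ∨ v ∈ B) :
    skellam s A ≤ poissonMeasure (s / 2) B + poissonMeasure (s / 2) B := by
  unfold skellam
  rw [Measure.map_apply .of_discrete .of_discrete]
  have hsub : (fun p : ℕ × ℕ => (p.1 : ℤ) - p.2) ⁻¹' A ⊆
      (B ×ˢ Set.univ) ∪ (Set.univ ×ˢ B) := by
    rintro ⟨u, v⟩ huv
    rcases h u v huv with hu | hv
    · exact Or.inl ⟨hu, trivial⟩
    · exact Or.inr ⟨trivial, hv⟩
  refine (measure_mono hsub).trans ((measure_union_le _ _).trans ?_)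
  rw [Measure.prod_prod, Measure.prod_prod]
  simp

theorem taskA2 : TaskA2 := by
  classical
  refine ⟨?_, ?_, ?_⟩
  · intro s
    have h0 := tsum_eq s (fun k => k ≠ 0)
    have h1 := skellam_le s {k | k ≠ 0} {n | 1 ≤ n} (by
      intro u v huv
      simp only [Set.mem_ofPred_eq] at huv ⊢
      omega)
    have h2 := poisson_ge_one (s / 2)
    have h3 : ((s / 2 : ℝ≥0) : ℝ≥0∞) + ((s / 2 : ℝ≥0) : ℝ≥0∞) = s := by
      rw [← ENNReal.coe_add, add_halves]
    calc ∑' k, (if k ≠ 0 then sk s k else 0) = skellam s {k | k ≠ 0} := by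
          rw [← h0]
      _ ≤ _ := h1
      _ ≤ _ := add_le_add h2 h2
      _ = s := h3
  · intro s
    have h0 := tsum_eq s (fun k => 2 ≤ |k|)
    have h1 := skellam_le s {k | 2 ≤ |k|} {n | 2 ≤ n} (by
      intro u v huv
      simp only [Set.mem_ofPred_eq] at huv ⊢
      rw [le_abs] at huv
      omega)
    have h2 := poisson_ge_two (s / 2)
    have h3 : (((s / 2) ^ 2 : ℝ≥0) : ℝ≥0∞) + (((s / 2) ^ 2 : ℝ≥0) : ℝ≥0∞) ≤
        ((s ^ 2 : ℝ≥0) : ℝ≥0∞) := by
      rw [← ENNReal.coe_add, ENNReal.coe_le_coe, ← NNReal.coe_le_coe]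
      push_cast
      nlinarith [sq_nonneg (s : ℝ)]
    calc ∑' k, (if 2 ≤ |k| then sk s k else 0) = skellam s {k | 2 ≤ |k|} := by
          rw [← h0]
      _ ≤ _ := h1
      _ ≤ _ := add_le_add h2 h2
      _ ≤ _ := h3
  · intro s
    unfold sk skellam
    rw [Measure.map_apply .of_discrete .of_discrete]
    have hsub : ({0} ×ˢ {0} : Set (ℕ × ℕ)) ⊆
        (fun p : ℕ × ℕ => (p.1 : ℤ) - p.2) ⁻¹' {0} := by
      rintro ⟨u, v⟩ ⟨hu, hv⟩
      simp only [Set.mem_singleton_iff] at hu hv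
      simp [hu, hv]
    refine le_trans ?_ (measure_mono hsub)
    rw [Measure.prod_prod, poissonMeasure_singleton, ← ENNReal.ofReal_mul (by positivity)]
    apply ENNReal.ofReal_le_ofReal
    simp only [pow_zero, Nat.factorial_zero, Nat.cast_one, div_one, mul_one]
    rw [← Real.exp_add]
    apply le_of_eq
    congr 1
    push_cast
    ring

end Pool.Agent.H237R3.MT.A2
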